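import Pool.Agent.R974.AT.Defs

/-!
# AT: pigeonhole for events
-/

set_option autoImplicit false

open MeasureTheory
open scoped ENNReal NNReal

namespace R958.AT

universe u

lemma union_lower {Ω : Type u} [MeasurableSpace Ω] (P : Measure Ω) [IsProbabilityMeasure P]
    (A : ℕ → Set Ω) (hA : ∀ i, MeasurableSet (A i)) (r q : ℝ) (hq : 0 ≤ q) (hr : ∀ i, P.real (A i) = r) (N : ℕ)
    (h : ∀ i j, i < j → j < N → P.real (A i ∩ A j) ≤ q) (n : ℕ) (hn : n ≤ N) :
    (n : ℝ) * (r - N * q) ≤ P.real (⋃ i ∈ Finset.range n, A i) := by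
  induction n with
  | zero => simp
  | succ n ih =>
    have h1 := ih (by omega)
    have h2 : (⋃ i ∈ Finset.range (n + 1), A i) = (⋃ i ∈ Finset.range n, A i) ∪ A n := by
      rw [Finset.range_add_one, Finset.set_biUnion_insert, Set.union_comm]
    have h3 : P.real ((⋃ i ∈ Finset.range n, A i) ∩ A n) ≤ n * q := by
      have h4 : (⋃ i ∈ Finset.range n, A i) ∩ A n = ⋃ i ∈ Finset.range n, (A i ∩ A n) := by
        rw [Set.iUnion₂_inter]
      rw [h4]
      refine (measureReal_biUnion_finset_le _ _).trans ?_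
      refine (Finset.sum_le_sum (g := fun _ => q) ?_).trans ?_
      · intro i hi
        exact h i n (Finset.mem_range.1 hi) (by omega)
      · simp
    have h5 := measureReal_union_add_inter (μ := P) (s := (⋃ i ∈ Finset.range n, A i)) (t := A n) (hA n)
      (measure_ne_top P _) (measure_ne_top P _)
    rw [hr n] at h5
    rw [h2]
    have h6 : (n : ℝ) * q ≤ N * q := by
      have : (n : ℝ) ≤ N := by exact_mod_cast (by omega : n ≤ N)
      exact mul_le_mul_of_nonneg_right this hq
    push_cast
    nlinarith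

theorem pair : R974.AT.S_PAIR.{u} := by
  intro p hp
  by_cases hp1 : 1 < p
  · refine ⟨2, 1, one_pos, ?_⟩
    intro Ω _ P _ A _ h
    exfalso
    have := prob_le_one (μ := P) (s := A 0)
    rw [h 0] at this
    exact absurd this (not_le.2 hp1)
  · have hp1' : p ≤ 1 := not_lt.1 hp1
    have hpt : p ≠ ⊤ := ne_top_of_le_ne_top ENNReal.one_ne_top hp1'
    have hr0 : 0 < p.toReal := ENNReal.toReal_pos hp.ne' hpt
    obtain ⟨N, hN⟩ := exists_nat_gt (2 / p.toReal)
    have hN0 : (0 : ℝ) < N := lt_trans (by positivity) hN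
    have hNr : 2 < N * p.toReal := by
      rwa [div_lt_iff₀ hr0] at hN
    refine ⟨N, ENNReal.ofReal (1 / (2 * N * N)), ENNReal.ofReal_pos.2 (by positivity), ?_⟩
    intro Ω _ P _ A hA h
    by_contra hcon
    push Not at hcon
    have h1 := union_lower P A hA p.toReal (1 / (2 * N * N)) (by positivity)
      (fun i => by rw [Measure.real, h i]) N (fun i j hij hj => by
        have h2 := (hcon i j hij hj).le
        rw [Measure.real]
        exact ENNReal.toReal_le_of_le_ofReal (by positivity) h2) N le_rfl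
    have h3 : P.real (⋃ i ∈ Finset.range N, A i) ≤ 1 := measureReal_le_one
    have h4 : (N : ℝ) * (p.toReal - N * (1 / (2 * N * N))) = N * p.toReal - 1 / 2 := by
      field_simp
    rw [h4] at h1
    linarith

end R958.AT
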